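import Pool.Agent.helper73.AD.Basic

/-! # Project ad (MP_a29257_gt), module EU (helper81): upper bound of eps by the angle defects -/

namespace Pool.Agent.helper73.AD

open scoped BigOperators Topology

theorem EU_W_nonneg {J : Type} (w : Word J) (σ : Fin (w.n + 1) → Bool) (z : PS J) :
    0 ≤ w.W σ z := (Real.exp_pos _).le

/-- the constant sequence `b` and the mixed sequences with `σ i = b` -/
theorem EU_split {J : Type} (w : Word J) (z : PS J) (b : Bool) (i : Fin (w.n + 1)) :
    w.W (fun _ => b) z + ∑ σ : Fin (w.n + 1) → Bool,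
        (if w.Mixed σ ∧ σ i = b then w.W σ z else 0)
      ≤ ∑ σ : Fin (w.n + 1) → Bool, (if σ i = b then w.W σ z else 0) := by
  have h1 : w.W (fun _ => b) z = ∑ σ : Fin (w.n + 1) → Bool,
      (if σ = (fun _ => b) then w.W σ z else 0) := by
    rw [Finset.sum_ite_eq' Finset.univ (fun _ => b)]
    simp
  rw [h1, ← Finset.sum_add_distrib]
  refine Finset.sum_le_sum fun σ _ => ?_
  have hW := EU_W_nonneg w σ z
  by_cases hb : σ = (fun _ => b)
  · have hm : ¬ w.Mixed σ := by
      rintro ⟨⟨j, hj⟩, ⟨k, hk⟩⟩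
      rw [hb] at hj hk
      simp only at hj hk
      rw [hj] at hk
      exact absurd hk (by decide)
    rw [if_pos hb, if_neg (fun h => hm h.1), if_pos (by rw [hb])]
    simp
  · rw [if_neg hb, zero_add]
    by_cases hi : σ i = b
    · rw [if_pos hi]
      split_ifs
      · exact le_rfl
      · exact hW
    · rw [if_neg (fun h => hi h.2), if_neg hi]

/-- every mixed sequence takes the value `b` somewhere -/
theorem EU_Wm_le {J : Type} (w : Word J) (z : PS J) (b : Bool) :
    w.Wm z ≤ ∑ i : Fin (w.n + 1), ∑ σ : Fin (w.n + 1) → Bool,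
        (if w.Mixed σ ∧ σ i = b then w.W σ z else 0) := by
  unfold Word.Wm
  rw [Finset.sum_comm]
  refine Finset.sum_le_sum fun σ _ => ?_
  have hW := EU_W_nonneg w σ z
  by_cases hm : w.Mixed σ
  · have hex : ∃ i, σ i = b := by
      cases b
      · exact hm.2
      · exact hm.1
    obtain ⟨i, hi⟩ := hex
    have h1 := Finset.single_le_sum (f := fun i => if w.Mixed σ ∧ σ i = b then w.W σ z else 0)
      (fun j _ => by split_ifs <;> simp [hW]) (Finset.mem_univ i)
    rw [if_pos hm]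
    refine le_trans ?_ h1
    simp [hm, hi]
  · rw [if_neg hm]
    exact Finset.sum_nonneg fun j _ => by split_ifs <;> simp [hW]

/-- the arithmetic core -/
theorem EU_core {n : ℕ} (l s P ϑ wt wf Wm : ℝ) (mx : Fin (n + 1) → ℝ)
    (hP : 1 ≤ P) (hprod : wt * wf = P ^ 2) (hwf0 : 0 < wf)
    (hwf : wf ≤ Real.exp (l / 2))
    (hmx : ∀ i, wt + mx i ≤ Real.exp (-(l / 2)) + s * ϑ)
    (hmx0 : ∀ i, 0 ≤ mx i) (hWm : Wm ≤ ∑ i, mx i) :
    (P - 1) + Wm ≤ (Real.exp (l / 2) + (n + 1)) * s * ϑ := by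
  have he : 0 < Real.exp (l / 2) := Real.exp_pos _
  have he' : Real.exp (-(l / 2)) = (Real.exp (l / 2))⁻¹ := Real.exp_neg _
  have hwt : P ^ 2 * Real.exp (-(l / 2)) ≤ wt := by
    rw [he', ← div_eq_mul_inv, div_le_iff₀ he, ← hprod]
    have hwt0 : 0 ≤ wt := by
      by_contra hneg
      push Not at hneg
      have := mul_neg_of_neg_of_pos hneg hwf0
      nlinarith
    exact mul_le_mul_of_nonneg_left hwf hwt0
  have h1 : ∀ i, (P ^ 2 - 1) * Real.exp (-(l / 2)) + mx i ≤ s * ϑ := fun i => by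
    have := hmx i
    linarith
  have h2 : P - 1 ≤ Real.exp (l / 2) * (s * ϑ) := by
    have h3 := h1 0
    have h4 := hmx0 0
    have h5 : (P ^ 2 - 1) * Real.exp (-(l / 2)) ≤ s * ϑ := by linarith
    have h6 := mul_le_mul_of_nonneg_left h5 he.le
    have h7 : Real.exp (l / 2) * ((P ^ 2 - 1) * Real.exp (-(l / 2))) = P ^ 2 - 1 := by
      rw [he']; field_simp
    nlinarith
  have h3 : Wm ≤ (n + 1) * (s * ϑ) := by
    refine hWm.trans ?_
    have : ∀ i ∈ Finset.univ, mx i ≤ s * ϑ := fun i _ => by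
      have h3 := h1 i
      have h4 : 0 ≤ (P ^ 2 - 1) * Real.exp (-(l / 2)) :=
        mul_nonneg (by nlinarith) (Real.exp_pos _).le
      linarith
    refine (Finset.sum_le_sum this).trans ?_
    rw [Finset.sum_const, Finset.card_univ, Fintype.card_fin, nsmul_eq_mul]
    push_cast
    exact le_rfl
  calc (P - 1) + Wm ≤ Real.exp (l / 2) * (s * ϑ) + (n + 1) * (s * ϑ) := add_le_add h2 h3
    _ = _ := by ring

theorem EU_of (hBF : BF_stmt) : EU_stmt := by
  intro J _ _ w z hz ϑ
  obtain ⟨_, hH, _, hWt, hWf, _, hlP, _, _, htrue, hfalse, hct, _, _⟩ := hBF J w z hz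
  have hP1 : 1 ≤ Real.exp (w.lP z) := Real.one_le_exp hlP.le
  have hprod : w.W (fun _ => true) z * w.W (fun _ => false) z = Real.exp (w.lP z) ^ 2 := by
    rw [hWt, hWf, ← Real.exp_add, ← Real.exp_nat_mul]
    congr 1
    push_cast
    ring
  have hs2 : Real.exp (w.H z / 2) = Real.exp (-(w.H z / 2)) + Real.sinh (w.H z / 2) * 2 := by
    rw [Real.sinh_eq]; ring
  have hs0 : 0 < Real.sinh (w.H z / 2) := Real.sinh_pos_iff.2 (by linarith)
  have hmx0 : ∀ (b : Bool) (i : Fin (w.n + 1)), 0 ≤ ∑ σ : Fin (w.n + 1) → Bool,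
      (if w.Mixed σ ∧ σ i = b then w.W σ z else 0) := fun b i =>
    Finset.sum_nonneg fun σ _ => by
      split_ifs
      · exact EU_W_nonneg w σ z
      · exact le_rfl
  have hWtle : w.W (fun _ => true) z ≤ Real.exp (w.H z / 2) := by
    have h1 := EU_split w z true 0
    rw [htrue 0] at h1
    have h2 := hmx0 true 0
    have h3 := abs_lt.1 (hct 0)
    have h4 : Real.sinh (w.H z / 2) * (1 - w.ct 0 z) ≤ Real.sinh (w.H z / 2) * 2 :=
      mul_le_mul_of_nonneg_left (by linarith) hs0.le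
    linarith
  have hWfle : w.W (fun _ => false) z ≤ Real.exp (w.H z / 2) := by
    have h1 := EU_split w z false 0
    rw [hfalse 0] at h1
    have h2 := hmx0 false 0
    have h3 := abs_lt.1 (hct 0)
    have h4 : Real.sinh (w.H z / 2) * (1 + w.ct 0 z) ≤ Real.sinh (w.H z / 2) * 2 :=
      mul_le_mul_of_nonneg_left (by linarith) hs0.le
    linarith
  unfold Word.eps
  constructor
  · intro hϑ
    refine EU_core (w.H z) _ (Real.exp (w.lP z)) ϑ (w.W (fun _ => true) z)
      (w.W (fun _ => false) z) (w.Wm z) (fun i => ∑ σ : Fin (w.n + 1) → Bool,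
      (if w.Mixed σ ∧ σ i = true then w.W σ z else 0)) hP1 hprod (Real.exp_pos _) hWfle
      (fun i => ?_) (hmx0 true) (EU_Wm_le w z true)
    have h1 := EU_split w z true i
    rw [htrue i] at h1
    have h4 := mul_le_mul_of_nonneg_left (hϑ i) hs0.le
    linarith
  · intro hϑ
    refine EU_core (w.H z) _ (Real.exp (w.lP z)) ϑ (w.W (fun _ => false) z)
      (w.W (fun _ => true) z) (w.Wm z) (fun i => ∑ σ : Fin (w.n + 1) → Bool,
      (if w.Mixed σ ∧ σ i = false then w.W σ z else 0)) hP1 (by rw [mul_comm]; exact hprod)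
      (Real.exp_pos _) hWtle
      (fun i => ?_) (hmx0 false) (EU_Wm_le w z false)
    have h1 := EU_split w z false i
    rw [hfalse i] at h1
    have h4 := mul_le_mul_of_nonneg_left (hϑ i) hs0.le
    linarith

end Pool.Agent.helper73.AD
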