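import Pool.Agent.helper73.AD.Basic

/-! # Project ad (MP_a29257_gt), module TD (helper81): determinant one for path sums, trace -/

namespace Pool.Agent.helper73.AD

open scoped BigOperators Topology

/-- determinant of a matrix indexed by Booleans -/
def TD_det (M : Matrix Bool Bool ℝ) : ℝ :=
  M true true * M false false - M true false * M false true

theorem TD_det_mul (M N : Matrix Bool Bool ℝ) : TD_det (M * N) = TD_det M * TD_det N := by
  unfold TD_det
  simp only [Matrix.mul_apply, Fintype.sum_bool]
  ring

theorem TD_det_one : TD_det 1 = 1 := by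
  unfold TD_det
  simp

theorem TD_det_prod (l : List (Matrix Bool Bool ℝ)) (h : ∀ M ∈ l, TD_det M = 1) :
    TD_det l.prod = 1 := by
  induction l with
  | nil => rw [List.prod_nil]; exact TD_det_one
  | cons M l ih =>
    rw [List.prod_cons, TD_det_mul, h M (by simp), ih fun N hN => h N (by simp [hN]), one_mul]

theorem TD_det_mat (hDT : DT_stmt) {J : Type} (w : Word J) (z : PS J) (hz : z ∈ Cone J)
    (i : Fin (w.n + 1)) : TD_det (w.mat z i) = 1 := by
  obtain ⟨h1, h2⟩ := hDT J (w.A i) z.1 hz
  unfold TD_det Word.mat
  rw [← Real.exp_add, ← Real.exp_add, h1]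
  have e1 : bs true * w.t i z / 2 + (w.A i).g true true z.1 +
      (bs false * w.t i z / 2 + (w.A i).g true true z.1) = 2 * (w.A i).g true true z.1 := by
    unfold bs; simp; ring
  have e2 : bs true * w.t i z / 2 + (w.A i).g true false z.1 +
      (bs false * w.t i z / 2 + (w.A i).g false true z.1)
      = (w.A i).g true false z.1 + (w.A i).g false true z.1 := by
    unfold bs; simp; ring
  rw [e1, e2, h2]
  ring

theorem TD_Lp {J : Type} (w : Word J) (σ : Fin (w.n + 1) → Bool) (z : PS J) :
    w.Lp (σ 0) σ z = w.L σ z := by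
  unfold Word.Lp Word.L
  refine Finset.sum_congr rfl fun i _ => ?_
  by_cases hi : i = Fin.last w.n
  · rw [if_pos hi, hi, Fin.last_add_one]
  · rw [if_neg hi]

theorem TD_of (hDT : DT_stmt) (hTP : TP_stmt) : TD_stmt := by
  intro J w z hz
  refine ⟨?_, ?_⟩
  · rw [← hTP J w z true true, ← hTP J w z false false, ← hTP J w z true false,
      ← hTP J w z false true]
    refine TD_det_prod _ fun M hM => ?_
    rw [List.mem_ofFn] at hM
    obtain ⟨i, rfl⟩ := hM
    exact TD_det_mat hDT w z hz i
  · unfold Word.F Word.Mp
    rw [← Finset.sum_add_distrib]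
    refine Finset.sum_congr rfl fun σ _ => ?_
    unfold Word.W
    rw [← TD_Lp]
    cases h : σ 0 <;> simp

end Pool.Agent.helper73.AD
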